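import Pool.Agent.Helper70.SK.Stmts
import Pool.Agent.Helper70.SK.Lib
import Pool.Agent.Helper61.DK.FRM

/-! Sticky Kakeya sets, module S45: the entropy increment under small `af`. -/

set_option autoImplicit false

namespace Pool.Agent.Helper70.SK

open Finset Pool.Agent.Helper70.DK

/-- the predicate `P0` on the cubes with small layers -/
def s45_Pg {m q : ℕ} (σ : Sy m q) (B i l0 lh : ℕ) (φ : ℝ)
    (P0 : (Fin m → ℤ) → ℕ → (Fin q → ℤ) → Prop) (τ : Fin m → ℤ) (c : ℕ) (S : Fin q → ℤ) : Prop :=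
  P0 τ c S ∧
    ((Ly (σ.Zt B i τ) (σ.yc B i c) ((B : ℤ) ^ σ.e l0) ((B : ℤ) ^ σ.e lh) S).card : ℝ) ≤
      φ * (Qb (σ.Zt B i τ) (σ.yc B i c) ((B : ℤ) ^ σ.e l0) S).card ∧
    (Qb (σ.Zt B i τ) (σ.yc B i c) ((B : ℤ) ^ σ.e l0) S).Nonempty

theorem s45_lay {m q : ℕ} (hLAY : ST_LAY) (σ : Sy m q) (B i l0 lh : ℕ) (rep : ℕ → ℕ) (φ : ℝ)
    (P0 : (Fin m → ℤ) → ℕ → (Fin q → ℤ) → Prop) (hB : 2 ≤ B) (hφ : 0 < φ) (hl : l0 < lh)
    (hn : lh ≤ σ.n + σ.a1 + σ.a3) :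
    σ.zz B i l0 rep P0 - 4 * q * 2 ^ q * (B : ℝ) ^ σ.e lh / ((B : ℝ) ^ σ.e l0 * φ) ≤
      σ.zz B i l0 rep (s45_Pg σ B i l0 lh φ P0) := by
  classical
  have hB0 : (0 : ℝ) < B := by exact_mod_cast (by omega : 0 < B)
  have hs0 : (0 : ℝ) < (B : ℝ) ^ σ.e l0 := by positivity
  set lam : ℝ := 4 * q * 2 ^ q * (B : ℝ) ^ σ.e lh / ((B : ℝ) ^ σ.e l0 * φ) with hlam
  have hlam0 : 0 ≤ lam := by rw [hlam]; positivity
  -- the bad corners
  let bad : (Fin m → ℤ) → ℕ → (Fin q → ℤ) → Prop := fun τ c S =>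
    φ * ((Qb (σ.Zt B i τ) (σ.yc B i c) ((B : ℤ) ^ σ.e l0) S).card : ℝ) <
      ((Ly (σ.Zt B i τ) (σ.yc B i c) ((B : ℤ) ^ σ.e l0) ((B : ℤ) ^ σ.e lh) S).card : ℝ)
  have hdiv : 2 * B ^ σ.e lh ≤ B ^ σ.e l0 := by
    have h1 : σ.e l0 = (σ.e l0 - σ.e lh - 1) + 1 + σ.e lh := by
      unfold Sy.e
      omega
    rw [h1, pow_add, pow_succ]
    have h2 : 1 ≤ B ^ (σ.e l0 - σ.e lh - 1) := Nat.one_le_pow _ _ (by omega)
    calc 2 * B ^ σ.e lh ≤ (1 * B) * B ^ σ.e lh := by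
          rw [one_mul]
          exact Nat.mul_le_mul_right _ hB
      _ ≤ (B ^ (σ.e l0 - σ.e lh - 1) * B) * B ^ σ.e lh :=
          Nat.mul_le_mul_right _ (Nat.mul_le_mul_right _ h2)
  have hbadτ : ∀ (c : ℕ) (τ : Fin m → ℤ), ∑ x ∈ σ.Zt B i τ,
      ((((Bx ((B : ℤ) ^ σ.e l0) (σ.yc B i c x)).filter
        (fun S => bad (σ.tr B i x) c S)).card : ℕ) : ℝ) ≤
      ((σ.Zt B i τ).card : ℝ) * (((B : ℝ) ^ σ.e l0) ^ q * lam) := by
    intro c τ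
    have h1 := hLAY (Fin m → ℤ) q (B ^ σ.e l0) (B ^ σ.e lh) (σ.Zt B i τ) (σ.yc B i c) φ
      (by positivity) hdiv hφ
    have h2 : ∑ x ∈ σ.Zt B i τ, ((((Bx ((B : ℤ) ^ σ.e l0) (σ.yc B i c x)).filter
        (fun S => bad (σ.tr B i x) c S)).card : ℕ) : ℝ) ≤
        ∑ ω ∈ σ.Zt B i τ, ((((Bx ((B ^ σ.e l0 : ℕ) : ℤ) (σ.yc B i c ω)).filter (fun S =>
          φ * ((Qb (σ.Zt B i τ) (σ.yc B i c) ((B ^ σ.e l0 : ℕ) : ℤ) S).card : ℝ) <
          ((Ly (σ.Zt B i τ) (σ.yc B i c) ((B ^ σ.e l0 : ℕ) : ℤ)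
            ((B ^ σ.e lh : ℕ) : ℤ) S).card : ℝ))).card : ℕ) : ℝ) := by
      refine Finset.sum_le_sum fun x hx => ?_
      have hx' : σ.tr B i x = τ := (Finset.mem_filter.1 hx).2
      have h3 : ((Bx ((B : ℤ) ^ σ.e l0) (σ.yc B i c x)).filter
          (fun S => bad (σ.tr B i x) c S)) ⊆
          ((Bx ((B ^ σ.e l0 : ℕ) : ℤ) (σ.yc B i c x)).filter (fun S =>
          φ * ((Qb (σ.Zt B i τ) (σ.yc B i c) ((B ^ σ.e l0 : ℕ) : ℤ) S).card : ℝ) <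
          ((Ly (σ.Zt B i τ) (σ.yc B i c) ((B ^ σ.e l0 : ℕ) : ℤ)
            ((B ^ σ.e lh : ℕ) : ℤ) S).card : ℝ))) := by
        intro S hS
        rw [Finset.mem_filter] at hS ⊢
        rw [Nat.cast_pow, Nat.cast_pow]
        refine ⟨hS.1, ?_⟩
        have h4 := hS.2
        rw [hx'] at h4
        exact h4
      exact_mod_cast Finset.card_le_card h3
    refine h2.trans (h1.trans (le_of_eq ?_))
    rw [hlam]
    push_cast
    ring
  have hsum : ∑ z ∈ σ.GX B, ((((Bx ((B : ℤ) ^ σ.e l0) (σ.yc B i (rep z.1) z.2)).filter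
      (fun S => bad (σ.tr B i z.2) (rep z.1) S)).card : ℕ) : ℝ) ≤
      ((σ.GX B).card : ℝ) * (((B : ℝ) ^ σ.e l0) ^ q) * lam := by
    unfold Sy.GX
    rw [Finset.sum_product]
    have h1 : ∀ γ ∈ σ.G, ∑ x ∈ σ.X B, ((((Bx ((B : ℤ) ^ σ.e l0) (σ.yc B i (rep γ) x)).filter
        (fun S => bad (σ.tr B i x) (rep γ) S)).card : ℕ) : ℝ) ≤
        ((σ.X B).card : ℝ) * (((B : ℝ) ^ σ.e l0) ^ q * lam) := by
      intro γ _
      rw [← Finset.sum_fiberwise_of_maps_to (s := σ.X B) (t := (σ.X B).image (σ.tr B i))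
        (g := σ.tr B i) (fun x hx => Finset.mem_image_of_mem _ hx)]
      calc ∑ τ ∈ (σ.X B).image (σ.tr B i), ∑ x ∈ (σ.X B).filter (fun x => σ.tr B i x = τ),
            ((((Bx ((B : ℤ) ^ σ.e l0) (σ.yc B i (rep γ) x)).filter
              (fun S => bad (σ.tr B i x) (rep γ) S)).card : ℕ) : ℝ)
          ≤ ∑ τ ∈ (σ.X B).image (σ.tr B i),
            ((σ.Zt B i τ).card : ℝ) * (((B : ℝ) ^ σ.e l0) ^ q * lam) :=
            Finset.sum_le_sum fun τ _ => hbadτ (rep γ) τ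
        _ = (∑ τ ∈ (σ.X B).image (σ.tr B i), ((σ.Zt B i τ).card : ℝ)) *
            (((B : ℝ) ^ σ.e l0) ^ q * lam) := by rw [Finset.sum_mul]
        _ = ((σ.X B).card : ℝ) * (((B : ℝ) ^ σ.e l0) ^ q * lam) := by
            congr 1
            rw [Finset.card_eq_sum_card_fiberwise (f := σ.tr B i)
              (t := (σ.X B).image (σ.tr B i)) (fun x hx => Finset.mem_image_of_mem _ hx)]
            push_cast
            rfl
    refine (Finset.sum_le_sum h1).trans (le_of_eq ?_)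
    rw [Finset.sum_const, nsmul_eq_mul, Finset.card_product]
    push_cast
    ring
  have hpt : ∀ z ∈ σ.GX B, ((((Bx ((B : ℤ) ^ σ.e l0) (σ.yc B i (rep z.1) z.2)).filter
      (fun S => P0 (σ.tr B i z.2) (rep z.1) S)).card : ℕ) : ℝ) ≤
      ((((Bx ((B : ℤ) ^ σ.e l0) (σ.yc B i (rep z.1) z.2)).filter
      (fun S => s45_Pg σ B i l0 lh φ P0 (σ.tr B i z.2) (rep z.1) S)).card : ℕ) : ℝ) +
      ((((Bx ((B : ℤ) ^ σ.e l0) (σ.yc B i (rep z.1) z.2)).filter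
      (fun S => bad (σ.tr B i z.2) (rep z.1) S)).card : ℕ) : ℝ) := by
    intro z hz
    have hzX : z.2 ∈ σ.X B := (Finset.mem_product.1 hz).2
    rw [← Nat.cast_add]
    refine Nat.cast_le.2 (le_trans (Finset.card_le_card ?_) (Finset.card_union_le _ _))
    intro S hS
    rw [Finset.mem_filter] at hS
    rw [Finset.mem_union, Finset.mem_filter, Finset.mem_filter]
    by_cases hb : bad (σ.tr B i z.2) (rep z.1) S
    · exact Or.inr ⟨hS.1, hb⟩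
    · refine Or.inl ⟨hS.1, hS.2, not_lt.1 hb, ⟨z.2, ?_⟩⟩
      unfold Qb
      rw [Finset.mem_filter]
      refine ⟨?_, ?_⟩
      · unfold Sy.Zt
        rw [Finset.mem_filter]
        exact ⟨hzX, rfl⟩
      · intro r
        have h1 := hS.1
        unfold Bx at h1
        rw [Fintype.mem_piFinset] at h1
        have h2 := Finset.mem_Ioc.1 (h1 r)
        constructor
        · exact h2.2
        · linarith [h2.1]
  have hT0 : 0 ≤ ((σ.GX B).card : ℝ) * ((B : ℝ) ^ σ.e l0) ^ q := by positivity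
  unfold Sy.zz
  rw [sub_le_iff_le_add]
  rcases hT0.eq_or_lt with hT | hT
  · rw [← hT, div_zero, div_zero, zero_add]
    exact hlam0
  · rw [div_le_iff₀ hT, add_mul, div_mul_cancel₀ _ hT.ne']
    have h1 := Finset.sum_le_sum hpt
    rw [Finset.sum_add_distrib] at h1
    have h2 : lam * (((σ.GX B).card : ℝ) * ((B : ℝ) ^ σ.e l0) ^ q) =
        ((σ.GX B).card : ℝ) * (((B : ℝ) ^ σ.e l0) ^ q) * lam := by ring
    rw [h2]
    exact h1.trans (add_le_add (le_of_eq rfl) hsum)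

/-- the predicate used for saturated cubes -/
def s45_P {m q : ℕ} (σ : Sy m q) (B i l0 lh l1 l2 : ℕ) (φ : ℝ) :
    (Fin m → ℤ) → ℕ → (Fin q → ℤ) → Prop :=
  s45_Pg σ B i l0 lh φ (σ.Sv B i l0 lh l1 l2 φ)

theorem s45_sat {m q' : ℕ} (c : ℝ) (hc : 0 ≤ c)
    (hTR : ∀ (B e0 eh e1 e2 : ℕ) (Ω : Type) (Z : Finset Ω) (y : Ω → Fin (q' + 1) → ℤ)
      (S v : Fin (q' + 1) → ℤ)
      (φ2 φ3 : ℝ) (M : Matrix (Fin q') (Fin (q' + 1)) ℝ), 2 ≤ B → e2 ≤ e1 → e1 < eh → eh ≤ e0 →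
      Frame M →
      M.mulVec (fun r => (v r : ℝ)) = 0 → (∀ r, |v r| < (B : ℤ) ^ e1) →
      (∃ r, (B : ℤ) ^ e2 ≤ |v r|) →
      (Qb Z y ((B : ℤ) ^ e0) S).Nonempty →
      (∀ j : ℕ, (∀ r, (j : ℤ) * |v r| ≤ (B : ℤ) ^ eh) →
        dp Z y Z y ((B : ℤ) ^ e0) ((B : ℤ) ^ e2) S (fun r => S r - j * v r) ≤ φ2) →
      ((Ly Z y ((B : ℤ) ^ e0) ((B : ℤ) ^ eh) S).card : ℝ) ≤
        φ3 * (Qb Z y ((B : ℤ) ^ e0) S).card →
      0 ≤ φ2 → 0 ≤ φ3 → φ2 + 2 * φ3 ≤ 1 →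
      ent (Qb Z y ((B : ℤ) ^ e0) S) (qf M y ((B : ℤ) ^ e1)) +
        ((eh : ℝ) - e1) * Real.log B - c -
        (φ2 + 2 * φ3) * ((q' + 1) * ((e0 : ℝ) - e1) * Real.log B + c) -
        Real.sqrt (φ2 + 2 * φ3) ≤
        ent (Qb Z y ((B : ℤ) ^ e0) S) (pf y ((B : ℤ) ^ e1) S))
    (σ : Sy m (q' + 1)) (B i l0 r2 W1 D1 : ℕ) (φ ε : ℝ) (hB : 2 ≤ B) (hφ : 0 < φ)
    (hφ1 : 3 * φ ≤ 1) (hε : 0 < ε) (hφε : 3 * φ * (64 * ((q' : ℝ) + 1)) ≤ ε) (hr2 : r2 < W1)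
    (hn : l0 + W1 + D1 ≤ σ.n + σ.a1 + σ.a3)
    (hW1 : 16 * (r2 * Real.log B + 2 * c + 1) ≤ ε * (W1 * Real.log B))
    (τ : Fin m → ℤ) (cc : ℕ) (S : Fin (q' + 1) → ℤ)
    (hP : s45_P σ B i l0 (l0 + r2) (l0 + W1) (l0 + W1 + D1) φ τ cc S) :
    ∃ M : Matrix (Fin q') (Fin (q' + 1)) ℝ, Frame M ∧
      ent (Qb (σ.Zt B i τ) (σ.yc B i cc) ((B : ℤ) ^ σ.e l0) S)
        (qf M (σ.yc B i cc) ((B : ℤ) ^ σ.e (l0 + W1))) +
        (1 - (ε / 2) / 4) * ((((l0 + W1 : ℕ) : ℝ) - l0) * Real.log B) ≤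
      ent (Qb (σ.Zt B i τ) (σ.yc B i cc) ((B : ℤ) ^ σ.e l0) S)
        (pf (σ.yc B i cc) ((B : ℤ) ^ σ.e (l0 + W1)) S) := by
  obtain ⟨⟨v, hv1, hv2, hv3⟩, hLy, hne⟩ := hP
  obtain ⟨M, hM, hMv⟩ := st_FRM.2.2.2.1 q' (fun r => (v r : ℝ))
  refine ⟨M, hM, ?_⟩
  have he2 : σ.e (l0 + W1 + D1) ≤ σ.e (l0 + W1) := by unfold Sy.e; omega
  have he1 : σ.e (l0 + W1) < σ.e (l0 + r2) := by unfold Sy.e; omega
  have heh : σ.e (l0 + r2) ≤ σ.e l0 := by unfold Sy.e; omega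
  have h := hTR B (σ.e l0) (σ.e (l0 + r2)) (σ.e (l0 + W1)) (σ.e (l0 + W1 + D1)) _
    (σ.Zt B i τ) (σ.yc B i cc) S v φ φ M hB he2 he1 heh hM hMv hv1 hv2 hne hv3 hLy hφ.le hφ.le
    (by linarith)
  have h1 : (σ.e (l0 + r2) : ℝ) - σ.e (l0 + W1) = W1 - r2 := by
    have h2 : σ.e (l0 + r2) + r2 = σ.e (l0 + W1) + W1 := by unfold Sy.e; omega
    have h3 : (σ.e (l0 + r2) : ℝ) + r2 = (σ.e (l0 + W1) : ℝ) + W1 := by exact_mod_cast h2
    linarith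
  have h2 : (σ.e l0 : ℝ) - σ.e (l0 + W1) = W1 := by
    have h3 : σ.e l0 = σ.e (l0 + W1) + W1 := by unfold Sy.e; omega
    have h4 : (σ.e l0 : ℝ) = (σ.e (l0 + W1) : ℝ) + W1 := by exact_mod_cast h3
    linarith
  rw [h1, h2] at h
  have h3 : (((l0 + W1 : ℕ) : ℝ) - l0) = W1 := by push_cast; ring
  rw [h3]
  have hL : 0 < Real.log B := Real.log_pos (by exact_mod_cast (by omega : 1 < B))
  have hWL : 0 ≤ (W1 : ℝ) * Real.log B := by positivity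
  have hx : φ + 2 * φ = 3 * φ := by ring
  rw [hx] at h
  have hs : Real.sqrt (3 * φ) ≤ 1 := by
    rw [Real.sqrt_le_one]
    exact hφ1
  have h4 : 3 * φ * (((q' : ℝ) + 1) * W1 * Real.log B + c) ≤
      ε / 64 * (W1 * Real.log B) + c := by
    have h5 : 3 * φ * ((q' : ℝ) + 1) ≤ ε / 64 := by linarith
    have h6 := mul_le_mul_of_nonneg_right h5 hWL
    have h7 : 3 * φ * c ≤ c := by nlinarith
    calc 3 * φ * (((q' : ℝ) + 1) * W1 * Real.log B + c) =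
        3 * φ * ((q' : ℝ) + 1) * (W1 * Real.log B) + 3 * φ * c := by ring
      _ ≤ _ := add_le_add h6 h7
  have h5 : ((W1 : ℝ) - r2) * Real.log B = W1 * Real.log B - r2 * Real.log B := by ring
  have h6 : (1 - ε / 2 / 4) * ((W1 : ℝ) * Real.log B) =
      W1 * Real.log B - ε / 8 * (W1 * Real.log B) := by ring
  rw [h5] at h
  rw [h6]
  have h7 : 0 ≤ ε * (W1 * Real.log B) := by positivity
  linarith

theorem st_S45 (hS4D : ST_S4D) (hS5 : ST_S5) (hTR : ST_TR) (hLAY : ST_LAY) : ST_S45 := by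
  intro m q' B R κ D hB hR hκ hD
  obtain ⟨c4, hc4, h4D⟩ := hS4D m (q' + 1) B R κ D (by omega) hB hR hD
  obtain ⟨cT, hcT, hT⟩ := hTR q'
  have hB1 : (1 : ℝ) < B := by exact_mod_cast (by omega : 1 < B)
  have hB2 : (2 : ℝ) ≤ B := by exact_mod_cast hB
  have hB0 : (0 : ℝ) < B := by linarith
  have hL : 0 < Real.log B := Real.log_pos hB1
  have hl3 : 0 < Real.log 3 := Real.log_pos (by norm_num)
  refine ⟨(((q' + 1 : ℕ) : ℝ) + 1) * Real.log 3, by positivity, ?_⟩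
  intro C e ε hEQ hLow hC he0 heq hε D1 hD1
  obtain ⟨N5, h5⟩ := hS5 m q' B R κ D C e (ε / 2) hEQ hLow hB hR hκ hD hC he0 heq (by linarith)
  -- parameters
  set Qr : ℝ := (q' : ℝ) + 1 with hQr
  have hQ1 : 1 ≤ Qr := by
    rw [hQr]
    have : (0 : ℝ) ≤ q' := Nat.cast_nonneg _
    linarith
  set φ : ℝ := min (1 / 3) (ε / (192 * Qr)) with hφd
  have hφ0 : 0 < φ := lt_min (by norm_num) (by positivity)
  have hφ1 : 3 * φ ≤ 1 := by
    have := min_le_left (1 / 3 : ℝ) (ε / (192 * Qr))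
    linarith
  have hφε : 3 * φ * (64 * Qr) ≤ ε := by
    have h1 : φ ≤ ε / (192 * Qr) := min_le_right _ _
    have h2 : φ * (192 * Qr) ≤ ε := by
      rw [le_div_iff₀ (by positivity)] at h1
      exact h1
    linarith
  obtain ⟨r2, hr20, hr2⟩ : ∃ r2 : ℕ, 1 ≤ r2 ∧
      32 * Qr * (Qr + 1) * 2 ^ (q' + 1) / (φ * ε) + 16 * (Qr + 1) * c4 / ε < 2 ^ r2 := by
    obtain ⟨r, hr⟩ := pow_unbounded_of_one_lt
      (32 * Qr * (Qr + 1) * 2 ^ (q' + 1) / (φ * ε) + 16 * (Qr + 1) * c4 / ε)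
      (by norm_num : (1 : ℝ) < 2)
    exact ⟨r + 1, by omega, hr.trans (pow_lt_pow_right₀ (by norm_num) (by omega))⟩
  obtain ⟨NW, hNW⟩ := exists_nat_ge (16 * (r2 * Real.log B + 2 * cT + 1) / (ε * Real.log B))
  refine ⟨N5 + r2 + 1 + NW, ?_⟩
  intro W1 hW1
  set Z : ℝ := (B : ℝ) ^ (W1 + D1) / φ with hZ
  have hZ0 : 0 < Z := by rw [hZ]; positivity
  set yy : ℝ := ε / (128 * (Qr + 1) * Z) with hyy
  have hyy0 : 0 < yy := by rw [hyy]; positivity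
  obtain ⟨r0', hr0'⟩ := pow_unbounded_of_one_lt (64 * (Qr + 1) * c4 * Z / ε)
    (by norm_num : (1 : ℝ) < 2)
  obtain ⟨nc, hnc⟩ := exists_nat_ge c4
  refine ⟨yy ^ 2, r0' + nc + N5, by positivity, ?_⟩
  intro σ Q k K i l0 rep hOk hRep hki hil hlK hKn hQn hiQ
  have h5' := h5 σ Q i l0 (l0 + W1) rep hOk hRep hil (by omega) (by omega) hQn (by omega)
  have hcast : (((l0 + W1 : ℕ) : ℝ) - l0) = W1 := by push_cast; ring
  have hWL : 0 ≤ (W1 : ℝ) * Real.log B := by positivity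
  constructor
  · -- first claim
    have h1 := h5' (fun _ _ _ => False) (fun τ c S h => h.elim)
    have h2 : σ.zz B i l0 rep (fun _ _ _ => False) = 0 := by
      unfold Sy.zz
      simp
    rw [h2, hcast] at h1
    refine le_trans ?_ h1
    refine mul_le_mul_of_nonneg_right ?_ hWL
    linarith
  · intro haf
    have hn1 : σ.n ≤ σ.n + σ.a1 + σ.a3 := by omega
    have hr2W : r2 < W1 := by omega
    have hWbig : 16 * (r2 * Real.log B + 2 * cT + 1) ≤ ε * (W1 * Real.log B) := by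
      have h1 : (NW : ℝ) ≤ W1 := by exact_mod_cast (by omega : NW ≤ W1)
      have h2 := hNW.trans h1
      rw [div_le_iff₀ (by positivity)] at h2
      linarith
    have hP := h5' (s45_P σ B i l0 (l0 + r2) (l0 + W1) (l0 + W1 + D1) φ)
      (fun τ c S hPS => s45_sat cT hcT hT σ B i l0 r2 W1 D1 φ ε hB hφ0 hφ1 hε hφε hr2W
        (by omega) hWbig τ c S hPS)
    rw [hcast] at hP
    refine le_trans ?_ hP
    refine mul_le_mul_of_nonneg_right ?_ hWL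
    -- the three losses
    have hlay : σ.zz B i l0 rep (σ.Sv B i l0 (l0 + r2) (l0 + W1) (l0 + W1 + D1) φ) -
        4 * ((q' + 1 : ℕ) : ℝ) * 2 ^ (q' + 1) * (B : ℝ) ^ σ.e (l0 + r2) /
          ((B : ℝ) ^ σ.e l0 * φ) ≤
        σ.zz B i l0 rep (s45_P σ B i l0 (l0 + r2) (l0 + W1) (l0 + W1 + D1) φ) := by
      exact s45_lay hLAY σ B i l0 (l0 + r2) rep φ
        (σ.Sv B i l0 (l0 + r2) (l0 + W1) (l0 + W1 + D1) φ) hB hφ0 (by omega) (by omega)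
    have hQc : ((l0 + W1 : ℕ) : ℝ) - i + c4 ≤ Q := by
      have h1 : ((l0 + W1 + nc : ℕ) : ℝ) ≤ ((i + Q : ℕ) : ℝ) := by
        exact_mod_cast (by omega : l0 + W1 + nc ≤ i + Q)
      push_cast at h1 ⊢
      linarith
    have h4 := h4D σ C Q k K i l0 (l0 + r2) (l0 + W1) (l0 + W1 + D1) rep φ hOk hRep hki hil
      (by omega) (by omega) (by omega) (by omega) hKn hQn hQc hφ0
    have hr2' : 32 * Qr * (Qr + 1) * 2 ^ (q' + 1) ≤ 2 ^ r2 * (φ * ε) := by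
      have h1 : 32 * Qr * (Qr + 1) * 2 ^ (q' + 1) / (φ * ε) ≤ 2 ^ r2 := by
        have h2 : 0 ≤ 16 * (Qr + 1) * c4 / ε := by positivity
        linarith
      rw [div_le_iff₀ (by positivity)] at h1
      exact h1
    have hr2'' : 16 * (Qr + 1) * c4 ≤ 2 ^ r2 * ε := by
      have h1 : 16 * (Qr + 1) * c4 / ε ≤ 2 ^ r2 := by
        have h2 : 0 ≤ 32 * Qr * (Qr + 1) * 2 ^ (q' + 1) / (φ * ε) := by positivity
        linarith
      rw [div_le_iff₀ hε] at h1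
      exact h1
    have hr0'' : 64 * (Qr + 1) * c4 * Z ≤ 2 ^ r0' * ε := by
      have h1 := hr0'.le
      rw [div_le_iff₀ hε] at h1
      exact h1
    have h2B : ∀ j : ℕ, (2 : ℝ) ^ j ≤ (B : ℝ) ^ j := fun j =>
      pow_le_pow_left₀ (by norm_num) hB2 j
    have hl1 : 4 * ((q' + 1 : ℕ) : ℝ) * 2 ^ (q' + 1) * (B : ℝ) ^ σ.e (l0 + r2) /
          ((B : ℝ) ^ σ.e l0 * φ) ≤ ε / (8 * (Qr + 1)) := by
      have h1 : σ.e l0 = σ.e (l0 + r2) + r2 := by unfold Sy.e; omega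
      rw [h1, pow_add (B : ℝ), div_le_div_iff₀ (by positivity) (by positivity)]
      have h2 : ((q' + 1 : ℕ) : ℝ) = Qr := by rw [hQr]; push_cast; ring
      rw [h2]
      have h3 : 0 < (B : ℝ) ^ σ.e (l0 + r2) := by positivity
      have h5 : 32 * Qr * (Qr + 1) * 2 ^ (q' + 1) ≤ (B : ℝ) ^ r2 * (φ * ε) :=
        hr2'.trans (mul_le_mul_of_nonneg_right (h2B r2) (by positivity))
      calc 4 * Qr * 2 ^ (q' + 1) * (B : ℝ) ^ σ.e (l0 + r2) * (8 * (Qr + 1)) =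
          (32 * Qr * (Qr + 1) * 2 ^ (q' + 1)) * (B : ℝ) ^ σ.e (l0 + r2) := by ring
        _ ≤ ((B : ℝ) ^ r2 * (φ * ε)) * (B : ℝ) ^ σ.e (l0 + r2) :=
            mul_le_mul_of_nonneg_right h5 h3.le
        _ = _ := by ring
    have hl2 : c4 * (1 / (B : ℝ) ^ (l0 + W1 - l0) + 1 / (B : ℝ) ^ (l0 + r2 - l0)) ≤
        ε / (8 * (Qr + 1)) := by
      rw [Nat.add_sub_cancel_left, Nat.add_sub_cancel_left]
      have h1 : 1 / (B : ℝ) ^ r2 ≤ 1 / 2 ^ r2 :=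
        one_div_le_one_div_of_le (by positivity) (h2B r2)
      have h2 : 1 / (B : ℝ) ^ W1 ≤ 1 / 2 ^ r2 :=
        one_div_le_one_div_of_le (by positivity)
          ((h2B r2).trans (pow_le_pow_right₀ (by linarith) hr2W.le))
      have h3 : c4 * (1 / (B : ℝ) ^ W1 + 1 / (B : ℝ) ^ r2) ≤ c4 * (1 / 2 ^ r2 + 1 / 2 ^ r2) :=
        mul_le_mul_of_nonneg_left (add_le_add h2 h1) hc4
      refine h3.trans ?_
      have h5 : c4 * (1 / 2 ^ r2 + 1 / 2 ^ r2) = (2 * c4) / 2 ^ r2 := by ring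
      rw [h5, div_le_div_iff₀ (by positivity) (by positivity)]
      linarith
    have hl3' : 2 * (4 * Real.sqrt (σ.af B k K i l0 (l0 + W1 + D1)) +
        c4 * ((B : ℝ) ^ (l0 + W1 + D1) / (B : ℝ) ^ (i + Q) +
          (B : ℝ) ^ (l0 + W1 + D1) / (B : ℝ) ^ K)) *
        (B : ℝ) ^ (l0 + W1 + D1 - (l0 + r2)) / φ ≤ ε / (8 * (Qr + 1)) := by
      have h1 : Real.sqrt (σ.af B k K i l0 (l0 + W1 + D1)) ≤ yy := by
        have := Real.sqrt_le_sqrt haf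
        rwa [Real.sqrt_sq hyy0.le] at this
      have h2 : ∀ j : ℕ, l0 + W1 + D1 + r0' ≤ j →
          (B : ℝ) ^ (l0 + W1 + D1) / (B : ℝ) ^ j ≤ 1 / 2 ^ r0' := by
        intro j hj
        rw [div_le_div_iff₀ (by positivity) (by positivity), one_mul]
        calc (B : ℝ) ^ (l0 + W1 + D1) * 2 ^ r0' ≤ (B : ℝ) ^ (l0 + W1 + D1) * (B : ℝ) ^ r0' :=
              mul_le_mul_of_nonneg_left (h2B r0') (by positivity)
          _ = (B : ℝ) ^ (l0 + W1 + D1 + r0') := by rw [← pow_add]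
          _ ≤ (B : ℝ) ^ j := pow_le_pow_right₀ hB1.le hj
      have h3 := h2 (i + Q) (by omega)
      have h5 := h2 K (by omega)
      have h6 : (B : ℝ) ^ (l0 + W1 + D1 - (l0 + r2)) / φ ≤ Z := by
        rw [hZ]
        exact div_le_div_of_nonneg_right (pow_le_pow_right₀ hB1.le (by omega)) hφ0.le
      have h7 : 2 * (4 * Real.sqrt (σ.af B k K i l0 (l0 + W1 + D1)) +
        c4 * ((B : ℝ) ^ (l0 + W1 + D1) / (B : ℝ) ^ (i + Q) +
          (B : ℝ) ^ (l0 + W1 + D1) / (B : ℝ) ^ K)) ≤ 2 * (4 * yy + c4 * (1 / 2 ^ r0' + 1 / 2 ^ r0')) := by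
        have := mul_le_mul_of_nonneg_left (add_le_add h3 h5) hc4
        linarith
      have h8 : 0 ≤ 2 * (4 * yy + c4 * (1 / 2 ^ r0' + 1 / 2 ^ r0')) := by positivity
      rw [mul_div_assoc]
      refine (mul_le_mul h7 h6 (by positivity) h8).trans ?_
      have h9 : 8 * yy * Z = ε / (16 * (Qr + 1)) := by
        rw [hyy]
        field_simp
        norm_num
      have h10 : 4 * c4 * Z / 2 ^ r0' ≤ ε / (16 * (Qr + 1)) := by
        rw [div_le_div_iff₀ (by positivity) (by positivity)]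
        linarith
      have h11 : 2 * (4 * yy + c4 * (1 / 2 ^ r0' + 1 / 2 ^ r0')) * Z =
          8 * yy * Z + 4 * c4 * Z / 2 ^ r0' := by ring
      have h12 : ε / (16 * (Qr + 1)) + ε / (16 * (Qr + 1)) = ε / (8 * (Qr + 1)) := by
        field_simp
        norm_num
      rw [h11, h9]
      linarith
    -- collect
    have hden : ((q' + 1 : ℕ) : ℝ) * (((l0 + W1 + D1 : ℕ) : ℝ) - ((l0 + W1 : ℕ) : ℝ)) *
        Real.log B = ((q' : ℝ) + 1) * D1 * Real.log B := by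
      push_cast
      ring
    rw [hden] at h4
    set X : ℝ := (σ.hr B rep k K i (l0 + W1) (l0 + W1 + D1) -
      (((q' + 1 : ℕ) : ℝ) + 1) * Real.log 3) / (((q' : ℝ) + 1) * D1 * Real.log B) with hX
    have hfin : X - 3 * (ε / (8 * (Qr + 1))) ≤
        σ.zz B i l0 rep (s45_P σ B i l0 (l0 + r2) (l0 + W1) (l0 + W1 + D1) φ) := by
      linarith
    have hqe0 : 0 ≤ Qr - e := by rw [hQr]; linarith
    have hqe1 : Qr - e ≤ Qr := by linarith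
    have h13 : (Qr - e) * (3 * (ε / (8 * (Qr + 1)))) ≤ ε / 2 := by
      have h14 : 0 ≤ 3 * (ε / (8 * (Qr + 1))) := by positivity
      refine (mul_le_mul_of_nonneg_right hqe1 h14).trans ?_
      rw [show Qr * (3 * (ε / (8 * (Qr + 1)))) = (3 * Qr * ε) / (8 * (Qr + 1)) by ring,
        div_le_div_iff₀ (by positivity) (by norm_num)]
      nlinarith
    have h15 := mul_le_mul_of_nonneg_left hfin hqe0
    rw [mul_sub] at h15
    change e - ε + (Qr - e) * X ≤ e + (Qr - e) *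
      σ.zz B i l0 rep (s45_P σ B i l0 (l0 + r2) (l0 + W1) (l0 + W1 + D1) φ) - ε / 2
    linarith

end Pool.Agent.Helper70.SK
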